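import Pool.Agent.W498.Dom.FibDefs
import Pool.Agent.W498.Dom.ClassDefs

/-!
# Tate classes on the generic fibre and on one closed fibre: definitions
-/

open CategoryTheory CategoryTheory.Limits AlgebraicGeometry

universe u v

namespace Pool.Agent.W498.Tat

open Pool.Agent.H914 VarClass Obj WeilCohomology Pool.Agent.W498.Dom Pool.Agent.W550.B

section Alg

variable {K K' A B C C' : Type*} [Field K] [Field K'] [Ring A] [Algebra K A] [Ring B]
  [Algebra K' B] [Ring C] [Algebra K C] [Ring C'] [Algebra K C'] {Γ Γ' : Type*} [Group Γ]
  [Group Γ']

/-- The conjecture A with coefficients, for a variety of dimension `m` and the class `e` of a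
divisor; `cl p` is the set of the classes of algebraic cycles of codimension `p`. -/
def SpanA (gr : ℕ → Submodule K A) (cl : ℕ → Set A) (e : A) (m : ℕ) : Prop :=
  ∀ j, 2 * j ≤ m → ∀ x ∈ gr (2 * j), e ^ (m - 2 * j) * x ∈ Submodule.span K (cl (m - j)) →
    x ∈ Submodule.span K (cl j)

/-- If `y` restricts to a `K`-combination of classes of cycles on the first fibre, then there is a
`K`-combination `z` of classes of cycles with the same restrictions as `y` to the two fibres. -/
def LiftsFor (gr : Submodule K A) (clA : Set A) (clC : Set C) (ι : A →ₐ[K] C)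
    (ι' : A →ₐ[K] C') : Prop :=
  ∀ y ∈ gr, ι y ∈ Submodule.span K clC → ∃ z ∈ Submodule.span K clA, ι z = ι y ∧ ι' z = ι' y

/-- The restriction `r` from the cohomology `A` of the total space to the cohomology `B` of the
geometric generic fibre, and the specialization `s` to the cohomology `C` of a smooth closed
fibre. -/
structure IsSpecialization (φ : K ≃+* K') (grA : ℕ → Submodule K A) (grB : ℕ → Submodule K' B)
    (clA : ℕ → Set A) (clB : ℕ → Set B) (clC : ℕ → Set C) (r : A →+* B) (s : B →+* C)
    (ι : A →ₐ[K] C) : Prop where
  rest_smul : ∀ (c : K) (y : A), r (c • y) = φ c • r y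
  rest_mem : ∀ l, ∀ y ∈ grA l, r y ∈ grB l
  rest_cl : ∀ p, ∀ y ∈ clA p, r y ∈ clB p
  sp_smul : ∀ (c : K) (x : B), s (φ c • x) = c • s x
  sp_cl : ∀ p, ∀ x ∈ clB p, s x ∈ clC p
  /-- smooth and proper base change -/
  sp_injective : Function.Injective s
  sp_rest : ∀ y : A, s (r y) = ι y

/-- The Galois groups act compatibly on the cohomology groups twisted `j` times, and the theorem of
the fixed part holds: the invariant classes on the generic fibre are restrictions. -/
structure IsGalois (grB : ℕ → Submodule K' B) (j : ℕ) (r : A →+* B) (ι : A →ₐ[K] C)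
    (actA : Γ →* Module.End K A) (actB : Γ' →* Module.End K' B) (actC : Γ →* Module.End K C)
    (gal : Γ' →* Γ) : Prop where
  map_act : ∀ σ y, ι (actA σ y) = actC σ (ι y)
  rest_act : ∀ σ y, actB σ (r y) = r (actA (gal σ) y)
  gal_surjective : Function.Surjective gal
  fixed : ∀ x ∈ grB (2 * j), (∀ σ, actB σ x = x) → ∃ y, r y = x

/-- The restriction to the geometric generic fibre, the specialization and the actions of the
Galois groups on the cohomology groups twisted `j` times. -/
structure GaloisData (grA : ℕ → Submodule K A) (grB : ℕ → Submodule K' B)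
    (grC : ℕ → Submodule K C) (clA : ℕ → Set A) (clB : ℕ → Set B) (clC : ℕ → Set C)
    (ι : A →ₐ[K] C) (j : ℕ) (Γ Γ' : Type*) [Group Γ] [Group Γ'] where
  /-- the isomorphism of the coefficient fields -/
  coeff : K ≃+* K'
  /-- the restriction to the geometric generic fibre -/
  rest : A →+* B
  /-- the specialization -/
  sp : B →+* C
  isSpec : IsSpecialization coeff grA grB clA clB clC rest sp ι
  /-- the action on the cohomology of the total space -/
  actA : Γ →* Module.End K A
  /-- the action on the cohomology of the generic fibre -/
  actB : Γ' →* Module.End K' B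
  /-- the action on the cohomology of the closed fibre -/
  actC : Γ →* Module.End K C
  /-- the homomorphism of the Galois groups -/
  gal : Γ' →* Γ
  isGalois : IsGalois grB j rest ι actA actB actC gal

namespace GaloisData

variable {grA : ℕ → Submodule K A} {grB : ℕ → Submodule K' B} {grC : ℕ → Submodule K C}
  {clA : ℕ → Set A} {clB : ℕ → Set B} {clC : ℕ → Set C} {ι : A →ₐ[K] C} {j : ℕ}
  (R : GaloisData grA grB grC clA clB clC ι j Γ Γ')

/-- The Tate conjecture in the codimension `j` for the generic fibre: the invariant classes of
degree `2 j` are in the span of the classes of algebraic cycles of codimension `j`. -/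
def TateGeneric : Prop :=
  ∀ x ∈ grB (2 * j), (∀ σ, R.actB σ x = x) → x ∈ Submodule.span K' (clB j)

/-- The Tate conjecture in the codimension `j` for the closed fibre. -/
def TateClosed : Prop :=
  ∀ x ∈ grC (2 * j), (∀ σ, R.actC σ x = x) → x ∈ Submodule.span K (clC j)

/-- The Tate conjecture in the codimension `j` for the classes on the closed fibre which are
restrictions of classes on the total space. -/
def TateFixed : Prop :=
  ∀ x ∈ grC (2 * j), (∀ σ, R.actC σ x = x) → x ∈ Set.range ι → x ∈ Submodule.span K (clC j)

/-- The Tate conjecture for the generic fibre is equivalent to the one for the restricted classes on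
the closed fibre, and follows from the one for the closed fibre. -/
def Reduces : Prop := (R.TateGeneric ↔ R.TateFixed) ∧ (R.TateClosed → R.TateGeneric)

end GaloisData

end Alg

variable {k Ω : Type u} [Field k] [Field Ω] [Algebra k Ω] {𝒱 : VarClass k} {ops : CycleOps 𝒱}
  {𝒱' : VarClass Ω} {ops' : CycleOps 𝒱'}

/-- The variety `X` over `Ω` is the fibre of the morphism `f : Y ⟶ S` of varieties over `k` over a
point `Spec Ω ⟶ S` over `Spec k` whose image is the generic point of `S`. -/
structure GenericFibre {Y S : 𝒱.Obj} (f : Y ⟶ S) (X : 𝒱'.Obj) where
  /-- the geometric generic point -/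
  pt : Spec (.of Ω) ⟶ S.V.X
  pt_str : pt ≫ S.V.str = Spec.map (CommRingCat.ofHom (algebraMap k Ω))
  generic : ∀ x, pt x = genericPoint S.V.X
  /-- the morphism from the fibre to the total space -/
  top : X.V.X ⟶ Y.V.X
  isPullback : IsPullback top X.V.str f.hom pt

/-- The classes of the cycles of codimension `p`. -/
def classes (W : WeilCohomology.{u, v} ops) (X : 𝒱.Obj) (p : ℕ) : Set (W.H X) :=
  {c | ∃ z, X.IsCyc p z ∧ W.cl X z = c}

/-- A morphism `f : Y ⟶ S`, a divisor `D` on `S` and a divisor `E` on `Y` for which the
decomposition theorem and the relative hard Lefschetz theorem hold, and a divisor `L` on `Y` which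
satisfies the hard Lefschetz theorem. -/
structure Family (W : WeilCohomology.{u, v} ops) where
  /-- the total space -/
  Y : 𝒱.Obj
  /-- the base -/
  S : 𝒱.Obj
  /-- the morphism -/
  f : Y ⟶ S
  /-- a divisor on the base -/
  D : S.Cycles
  cyc_D : S.IsCyc 1 D
  /-- a divisor on the total space -/
  E : Y.Cycles
  cyc_E : Y.IsCyc 1 E
  /-- the decomposition theorem and the relative hard Lefschetz theorem -/
  dec : PerverseDecomposition W f D E
  /-- a divisor on the total space -/
  L : Y.Cycles
  cyc_L : Y.IsCyc 1 L
  hardLef : HardLefschetz W Y L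

variable {W : WeilCohomology.{u, v} ops} (F : Family W)

/-- A fibre of the family over a closed point over which the morphism is smooth. -/
structure SmoothFibre where
  /-- the fibre -/
  P : 𝒱.Obj
  /-- the inclusion of the fibre -/
  i : P ⟶ F.Y
  smooth : IsSmoothFibre F.dec i

/-- The conjecture A with coefficients for the total space of the family. -/
def ConjectureA : Prop := SpanA (W.gr F.Y) (classes W F.Y) (W.cl F.Y F.L) F.Y.dim

/-- The total space is in the smallest class of varieties which contains all curves and is stable
under products, hyperplane sections, sums of twists and dominant images. -/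
def BuiltFromCurves : Prop := Built W ∅ F.Y ∧ ∀ Z : 𝒱.Obj, ∃ M, IsLefschetzDivisor W Z M

variable {F}

/-- If a class of degree `2 j` on the total space restricts to a `K`-combination of classes of
cycles on `P`, then a `K`-combination of classes of cycles on the total space has the same
restrictions to `P` and `P'`. -/
def AlgebraicLifts (j : ℕ) (P P' : SmoothFibre F) : Prop :=
  LiftsFor (W.gr F.Y (2 * j)) (classes W F.Y j) (classes W P.P j) (W.map P.i) (W.map P'.i)

/-- The variety `X` over `Ω` is the geometric generic fibre of the family `F`, and `P` is a smooth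
closed fibre. The family and the fibre `P` are defined over a subfield `k₀` of `k`, with `S`
geometrically connected, and `X` is defined over the function field `k₁` of `S` over `k₀`; the
absolute Galois groups of `k₀` and `k₁` are `Γ` and `Γ'`. -/
structure Generic (P : SmoothFibre F) (W' : WeilCohomology.{u, v} ops') (X : 𝒱'.Obj) (j : ℕ)
    (Γ Γ' : Type u) [Group Γ] [Group Γ'] where
  /-- `X` is the geometric generic fibre -/
  fibre : GenericFibre F.f X
  /-- restriction, specialization and Galois actions -/
  data : GaloisData (W.gr F.Y) (W'.gr X) (W.gr P.P) (classes W F.Y) (classes W' X)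
    (classes W P.P) (W.map P.i) j Γ Γ'

end Pool.Agent.W498.Tat
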