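import Pool.Agent.W498.Dom.FixMain
import Pool.Agent.W498.Dom.AMain
import Pool.Agent.W498.Tat.Defs

/-!
# Tate classes on the generic fibre and on one closed fibre
-/

open CategoryTheory AlgebraicGeometry Finset

set_option linter.unusedSectionVars false

universe u v

namespace Pool.Agent.W498.Tat

open Pool.Agent.H914 Pool.Agent.H447 VarClass Obj WeilCohomology Pool.Agent.W498.Dom
  Pool.Agent.W534 Pool.Agent.W550.B

variable {k Ω : Type u} [Field k] [Field Ω] [Algebra k Ω] {𝒱 : VarClass k} {ops : CycleOps 𝒱}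
  {𝒱' : VarClass Ω} {ops' : CycleOps 𝒱'}
  {W : WeilCohomology.{u, v} ops} {W' : WeilCohomology.{u, v} ops'}

lemma span_classes (X : 𝒱.Obj) (j : ℕ) :
    Submodule.span W.K (classes W X j) = spanCycles W X j := by
  rw [spanCycles]
  congr 1
  ext c
  constructor
  · rintro ⟨z, hz, rfl⟩
    exact ⟨j, rfl, z, hz, rfl⟩
  · rintro ⟨p, hp, z, hz, rfl⟩
    obtain rfl : p = j := by exact_mod_cast hp
    exact ⟨z, hz, rfl⟩

/-- The symmetry of the ranks. -/
lemma ranks_of_A {F : Family W} (hA : ConjectureA F) :
    ∀ j c, 2 * j + c = F.Y.dim → cycleRank W F.Y j = cycleRank W F.Y (j + c) := by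
  intro j c hjc
  refine (aspan_iff F.cyc_L F.hardLef hjc).1 ?_
  intro x hx h
  have := hA j (by omega) x hx (by rw [span_classes]; exact h)
  rwa [span_classes] at this

/-- The symmetry of the ranks for the varieties built from curves. -/
lemma ranks_of_built {F : Family W} (h : BuiltFromCurves F) :
    ∀ j c, 2 * j + c = F.Y.dim → cycleRank W F.Y j = cycleRank W F.Y (j + c) := by
  have hinj : Inj W F.Y := inj_of_built h.2 (fun P hP => absurd hP (Set.notMem_empty P)) h.1
  intro j c hjc
  obtain ⟨ν, hν, hνi⟩ := hinj c (by omega)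
  apply le_antisymm
  · exact rank_le (fun q a ha => span_mul F.cyc_L ha) F.hardLef hjc
  · apply finrank_le_of_inj (T := ν)
    · intro x hx
      have := KOp.map_span hν hx
      rwa [show (j : ℤ) + c + -c = j by ring] at this
    · intro x hx h0
      apply hνi x _ h0
      exact span_le_gr (by push_cast; omega) hx

lemma ranks_of_family {F : Family W} (hF : ConjectureA F ∨ BuiltFromCurves F) :
    ∀ j c, 2 * j + c = F.Y.dim → cycleRank W F.Y j = cycleRank W F.Y (j + c) :=
  hF.elim ranks_of_A ranks_of_built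

/-- If `α` restricts to zero on one smooth fibre, it restricts to zero on all smooth fibres. -/
lemma restr_zero {F : Family W} (P P' : SmoothFibre F) {j : ℕ} {y : W.H F.Y} (hy : y ∈ W.gr F.Y j)
    (h0 : W.map P.i y = 0) : W.map P'.i y = 0 := by
  obtain ⟨κ, M⟩ := exists_fibSetup P.smooth
  obtain ⟨κ', M'⟩ := exists_fibSetup P'.smooth
  have hr := P.smooth.dim_eq
  have S' := setup F.dec F.cyc_D F.cyc_E hr
  have h1 := M.γι y
  have h2 : (W.map P.i).toLinearMap y = 0 := h0
  rw [h2, map_zero] at h1
  have h3 : (hop W F.f F.D ^ F.S.dim) y = 0 := by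
    rcases smul_eq_zero.1 h1.symm with h | h
    · exact absurd h M.κ0
    · exact h
  -- the component which matters
  set y0 := proj S'.iP (j + F.S.dim) y with hy0
  have hy0P : y0 ∈ F.dec.piece (j + F.S.dim) := proj_mem S'.iP _ _
  have hy0g : y0 ∈ W.gr F.Y j := S'.projP_gr hy _
  have h4 : (hop W F.f F.D ^ F.S.dim) y0 = 0 := by
    rw [hy0, S'.pow_h_projP, h3, map_zero]
  have h5 : y0 = 0 := by
    have h6 := (F.dec.isPerverse.hardLef (j + F.S.dim) j (by omega)).1 y0 ⟨hy0P, hy0g⟩
    apply h6
    rw [show j + F.S.dim - j = F.S.dim by omega]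
    exact h4
  have h7 := M'.iota_proj (m := P.P.dim) (e := eop W F.Y F.E) S' hy
  rw [← hy0, h5, map_zero] at h7
  exact h7

/-- **The variational theorem.** -/
theorem variational {F : Family W} (hF : ConjectureA F ∨ BuiltFromCurves F) (j : ℕ)
    (P P' : SmoothFibre F) : AlgebraicLifts j P P' := by
  intro y hy h
  rw [span_classes] at h
  have h1 : W.map P.i y ∈ restrGr W P.i (2 * j) := by
    rw [← restr_eq F.cyc_D F.cyc_E P.smooth (ranks_of_family hF) (2 * j), algGr_even]
    exact ⟨h, y, hy, rfl⟩
  obtain ⟨z, hz, hzy⟩ := h1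
  rw [algGr_even] at hz
  refine ⟨z, by rw [span_classes]; exact hz, hzy, ?_⟩
  have h2 : W.map P.i (z - y) = 0 := by
    rw [map_sub, sub_eq_zero]
    exact hzy
  have h3 := restr_zero P P' (Submodule.sub_mem _ (span_le_gr (by push_cast; ring) hz) hy) h2
  rwa [map_sub, sub_eq_zero] at h3

/-! ### The generic fibre -/

section

variable {F : Family W} {P : SmoothFibre F} {X : 𝒱'.Obj} {j : ℕ} {Γ Γ' : Type u} [Group Γ]
  [Group Γ'] (R : Generic P W' X j Γ Γ')

lemma rest_span {z : W.H F.Y} (hz : z ∈ Submodule.span W.K (classes W F.Y j)) :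
    R.data.rest z ∈ Submodule.span W'.K (classes W' X j) := by
  induction hz using Submodule.span_induction with
  | mem x hx => exact Submodule.subset_span (R.data.isSpec.rest_cl _ _ hx)
  | zero => rw [map_zero]; exact Submodule.zero_mem _
  | add x y _ _ hx hy => rw [map_add]; exact Submodule.add_mem _ hx hy
  | smul c x _ hx => rw [R.data.isSpec.rest_smul]; exact Submodule.smul_mem _ _ hx

lemma sp_span {x : W'.H X} (hx : x ∈ Submodule.span W'.K (classes W' X j)) :
    R.data.sp x ∈ Submodule.span W.K (classes W P.P j) := by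
  induction hx using Submodule.span_induction with
  | mem x hx => exact Submodule.subset_span (R.data.isSpec.sp_cl _ _ hx)
  | zero => rw [map_zero]; exact Submodule.zero_mem _
  | add x y _ _ hx hy => rw [map_add]; exact Submodule.add_mem _ hx hy
  | smul c x _ hx =>
    obtain ⟨d, rfl⟩ := R.data.coeff.surjective c
    rw [R.data.isSpec.sp_smul]
    exact Submodule.smul_mem _ _ hx

lemma rest_proj (l : ℕ) (y : W.H F.Y) : R.data.rest (proj (W.isInternal F.Y) l y) =
    proj (W'.isInternal X) l (R.data.rest y) := by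
  refine gr_induction (W.isInternal F.Y) (p := fun y =>
    R.data.rest (proj (W.isInternal F.Y) l y) =
      proj (W'.isInternal X) l (R.data.rest y)) ?_ ?_ y
  · intro m a ha
    by_cases hlj : m = l
    · subst hlj
      rw [proj_same _ ha, proj_same _ (R.data.isSpec.rest_mem _ _ ha)]
    · rw [proj_ne _ ha hlj, proj_ne _ (R.data.isSpec.rest_mem _ _ ha) hlj, map_zero]
  · intro a b ha hb
    rw [map_add, map_add, map_add, map_add, ha, hb]

/-- **Tate classes on the generic fibre and on one closed fibre.** -/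
theorem tate_iff (hF : ConjectureA F ∨ BuiltFromCurves F) :
    R.data.TateGeneric ↔ R.data.TateFixed := by
  have S := R.data.isSpec
  have G := R.data.isGalois
  constructor
  · rintro hT _ hy hyσ ⟨y, rfl⟩
    set y0 := proj (W.isInternal F.Y) (2 * j) y with hy0
    have h1 : W.map P.i y0 = W.map P.i y := by
      rw [hy0, map_proj, proj_same _ hy]
    have h2 : R.data.sp (R.data.rest y0) = W.map P.i y := by rw [S.sp_rest, h1]
    have h3 : R.data.rest y0 ∈ Submodule.span W'.K (classes W' X j) := by
      refine hT _ (S.rest_mem _ _ (proj_mem _ _ _)) fun σ => ?_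
      apply S.sp_injective
      rw [G.rest_act, S.sp_rest, G.map_act, h1, hyσ, h2]
    rw [← h2]
    exact sp_span R h3
  · intro hT x hx hxσ
    obtain ⟨y, hy⟩ := G.fixed x hx hxσ
    set y0 := proj (W.isInternal F.Y) (2 * j) y with hy0
    have h1 : R.data.rest y0 = x := by
      rw [hy0, rest_proj, hy, proj_same _ hx]
    have hy0g : y0 ∈ W.gr F.Y (2 * j) := proj_mem _ _ _
    have h3 : W.map P.i y0 ∈ Submodule.span W.K (classes W P.P j) := by
      refine hT _ (W.map_mem _ hy0g) (fun σ => ?_) ⟨y0, rfl⟩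
      obtain ⟨σ', rfl⟩ := G.gal_surjective σ
      rw [← G.map_act, ← S.sp_rest, ← G.rest_act, h1, hxσ, ← h1, S.sp_rest]
    obtain ⟨z, hz, hzy, -⟩ := variational hF j P P y0 hy0g h3
    have h4 : R.data.rest z = x := by
      rw [← h1]
      apply S.sp_injective
      rw [S.sp_rest, S.sp_rest, hzy]
    rw [← h4]
    exact rest_span R hz

theorem reduces (hF : ConjectureA F ∨ BuiltFromCurves F) : R.data.Reduces :=
  ⟨tate_iff R hF, fun hT => (tate_iff R hF).2 fun x h h' _ => hT x h h'⟩

end

end Pool.Agent.W498.Tat
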